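import Pool.Agent.H91.RQ.SSP

/-!
# Solomon's induction theorem (SOL)
-/

set_option autoImplicit false

namespace Pool.Agent.H91.RQ

open Pool.Agent.H95.RQ Pool.Agent.H28.RC

/-- the permutation characters of the cyclic-by-`p` subgroups -/
def solGens (G : Type) [Group G] : Set (G → ℤ) :=
  {f | ∃ H : Subgroup G, (∃ p : ℕ, p.Prime ∧ HE p H) ∧ f = pcz H}

theorem solGens_mul (h_PCM : T_PCM) {G : Type} [Group G] [Finite G] {f g : G → ℤ}
    (hf : f ∈ solGens G) (hg : g ∈ solGens G) : f * g ∈ AddSubgroup.closure (solGens G) := by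
  obtain ⟨H, ⟨p, hp, hH⟩, rfl⟩ := hf
  obtain ⟨K, _, rfl⟩ := hg
  obtain ⟨N, L, x, h1, h2⟩ := h_PCM G H K
  have h3 : pcz H * pcz K = ∑ i, pcz (L i) := by
    funext g
    rw [Pi.mul_apply, h2 g, Finset.sum_apply]
  rw [h3]
  refine AddSubgroup.sum_mem _ fun i _ => AddSubgroup.subset_closure ⟨L i, ⟨p, hp, ?_⟩, rfl⟩
  refine HE_of_inj (G := H) (L := L i)
    { toFun := fun g => ⟨(x i)⁻¹ * g * x i, h1 i g g.2⟩
      map_one' := by
        apply Subtype.ext
        simp
      map_mul' := fun a b => by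
        apply Subtype.ext
        simp [mul_assoc] } ?_ hH
  intro a b hab
  have h4 : (x i)⁻¹ * (a : G) * x i = (x i)⁻¹ * (b : G) * x i := congrArg Subtype.val hab
  apply Subtype.ext
  exact mul_left_cancel (mul_right_cancel h4)

theorem sol_closed (h_PCM : T_PCM) {G : Type} [Group G] [Finite G] {f g : G → ℤ}
    (hf : f ∈ AddSubgroup.closure (solGens G)) (hg : g ∈ AddSubgroup.closure (solGens G)) :
    f * g ∈ AddSubgroup.closure (solGens G) := by
  induction hf using AddSubgroup.closure_induction with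
  | mem f hf =>
    induction hg using AddSubgroup.closure_induction with
    | mem g hg => exact solGens_mul h_PCM hf hg
    | zero => rw [mul_zero]; exact AddSubgroup.zero_mem _
    | add a b _ _ ha hb => rw [mul_add]; exact AddSubgroup.add_mem _ ha hb
    | neg a _ ha => rw [mul_neg]; exact AddSubgroup.neg_mem _ ha
  | zero => rw [zero_mul]; exact AddSubgroup.zero_mem _
  | add a b _ _ ha hb => rw [add_mul]; exact AddSubgroup.add_mem _ ha hb
  | neg a _ ha => rw [neg_mul]; exact AddSubgroup.neg_mem _ ha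

theorem sol_repr {G : Type} [Group G] {f : G → ℤ}
    (hf : f ∈ AddSubgroup.closure (solGens G)) :
    ∃ (N : ℕ) (H : Fin N → Subgroup G) (n : Fin N → ℤ),
      (∀ i, ∃ p : ℕ, p.Prime ∧ HE p (H i)) ∧ ∀ g, ∑ i, n i * pcz (H i) g = f g := by
  induction hf using AddSubgroup.closure_induction with
  | mem f hf =>
    obtain ⟨H, hH, rfl⟩ := hf
    exact ⟨1, fun _ => H, fun _ => 1, fun _ => hH, fun g => by simp⟩
  | zero => exact ⟨0, Fin.elim0, Fin.elim0, fun i => i.elim0, fun g => by simp⟩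
  | add a b _ _ ha hb =>
    obtain ⟨N, H, n, h1, h2⟩ := ha
    obtain ⟨M, K, m, h3, h4⟩ := hb
    refine ⟨N + M, Fin.append H K, Fin.append n m, ?_, ?_⟩
    · intro i
      refine Fin.addCases (fun j => ?_) (fun j => ?_) i
      · rw [Fin.append_left]; exact h1 j
      · rw [Fin.append_right]; exact h3 j
    · intro g
      rw [Fin.sum_univ_add, Pi.add_apply, ← h2 g, ← h4 g]
      simp only [Fin.append_left, Fin.append_right]
  | neg a _ ha =>
    obtain ⟨N, H, n, h1, h2⟩ := ha
    refine ⟨N, H, fun i => - n i, h1, fun g => ?_⟩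
    rw [Pi.neg_apply, ← h2 g, ← Finset.sum_neg_distrib]
    exact Finset.sum_congr rfl fun i _ => neg_mul _ _

theorem pf_SOL (_h_SSP : T_SSP) (h_BAN : T_BAN) (h_PCM : T_PCM) (h_SYL : T_SYL) : T_SOL := by
  intro G _ _
  have h1 : (1 : G → ℤ) ∈ AddSubgroup.closure (solGens G) := by
    by_contra hcon
    obtain ⟨x, p, hp, h2⟩ := h_BAN G (AddSubgroup.closure (solGens G))
      (fun f hf g hg => sol_closed h_PCM hf hg) hcon
    obtain ⟨H, hH, h3⟩ := h_SYL G x p hp
    exact h3 (h2 _ (AddSubgroup.subset_closure ⟨H, ⟨p, hp, hH⟩, rfl⟩))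
  obtain ⟨N, H, n, h3, h4⟩ := sol_repr h1
  exact ⟨N, H, n, h3, fun g => h4 g⟩

end Pool.Agent.H91.RQ
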