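import Pool.Agent.H95.RQ.Targets1

/-!
# Cyclic-by-`p` groups: subgroups and chief series (SSP)
-/

set_option autoImplicit false

namespace Pool.Agent.H91.RQ

open Pool.Agent.H95.RQ Pool.Agent.H28.RC

theorem isP_iff {p : ℕ} {G : Type} [Group G] (C : Subgroup G) [C.Normal] :
    IsPGroup p (G ⧸ C) ↔ ∀ g : G, ∃ k : ℕ, g ^ (p ^ k) ∈ C := by
  constructor
  · intro h g
    obtain ⟨k, hk⟩ := h (QuotientGroup.mk g)
    refine ⟨k, ?_⟩
    rw [← QuotientGroup.eq_one_iff, QuotientGroup.mk_pow]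
    exact hk
  · intro h x
    obtain ⟨g, rfl⟩ := QuotientGroup.mk_surjective x
    obtain ⟨k, hk⟩ := h g
    exact ⟨k, by rw [← QuotientGroup.mk_pow, QuotientGroup.eq_one_iff]; exact hk⟩

/-- a group which embeds in a cyclic-by-`p` group is cyclic-by-`p`. -/
theorem HE_of_inj {p : ℕ} {G L : Type} [Group G] [Group L] (f : L →* G)
    (hf : Function.Injective f) (h : HE p G) : HE p L := by
  obtain ⟨C, hC, hcyc, hp⟩ := h
  have := hC
  refine ⟨C.comap f, hC.comap f, ?_, ?_⟩
  · haveI := hcyc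
    refine isCyclic_of_injective (f.subgroupComap C) ?_
    intro x y hxy
    apply Subtype.ext
    apply hf
    exact congrArg Subtype.val hxy
  · haveI := hC.comap f
    rw [isP_iff] at *
    intro g
    obtain ⟨k, hk⟩ := hp (f g)
    exact ⟨k, by rw [Subgroup.mem_comap, map_pow]; exact hk⟩

theorem pf_SSP : T_SSP := by
  intro p G _ _ hpp hG
  refine ⟨fun H => HE_of_inj H.subtype H.subtype_injective hG, ?_⟩
  intro Z hZ hZt
  obtain ⟨C, hC, hcyc, hp⟩ := hG
  have := hC
  have := hZ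
  have := hcyc
  have : Fact p.Prime := ⟨hpp⟩
  by_cases hCZ : C ≤ Z
  · rw [isP_iff] at hp
    have hpZ : IsPGroup p (G ⧸ Z) := by
      rw [isP_iff]
      intro g
      obtain ⟨k, hk⟩ := hp g
      exact ⟨k, hCZ hk⟩
    have : Nontrivial (G ⧸ Z) := by
      obtain ⟨g, hg⟩ : ∃ g, g ∉ Z := by
        by_contra hcon
        push Not at hcon
        exact hZt (eq_top_iff.2 fun g _ => hcon g)
      exact ⟨⟨QuotientGroup.mk g, 1, fun h => hg ((QuotientGroup.eq_one_iff g).1 h)⟩⟩
    have := hpZ.center_nontrivial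
    obtain ⟨⟨z, hz⟩, hz1⟩ := exists_ne (1 : Subgroup.center (G ⧸ Z))
    obtain ⟨a, rfl⟩ := QuotientGroup.mk_surjective z
    have hz1' : (QuotientGroup.mk a : G ⧸ Z) ≠ 1 := fun h => hz1 (Subtype.ext h)
    have hn : (Subgroup.zpowers (QuotientGroup.mk a : G ⧸ Z)).Normal := by
      refine ⟨?_⟩
      rintro n ⟨k, rfl⟩ g
      refine ⟨k, ?_⟩
      have hc : (QuotientGroup.mk a : G ⧸ Z) ^ k ∈ Subgroup.center (G ⧸ Z) :=
        Subgroup.zpow_mem _ hz k
      have := (Subgroup.mem_center_iff.1 hc g)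
      simp only [this, mul_inv_cancel_right]
    refine ⟨(Subgroup.zpowers (QuotientGroup.mk a : G ⧸ Z)).comap (QuotientGroup.mk' Z),
      hn.comap _, ?_, a, ?_⟩
    · refine lt_of_le_of_ne ?_ ?_
      · intro z hz
        rw [Subgroup.mem_comap]
        have : (QuotientGroup.mk' Z) z = 1 := (QuotientGroup.eq_one_iff z).2 hz
        rw [this]
        exact Subgroup.one_mem _
      · intro h
        apply hz1'
        rw [QuotientGroup.eq_one_iff, h, Subgroup.mem_comap]
        exact Subgroup.mem_zpowers _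
    · intro x hx
      rw [Subgroup.mem_comap] at hx
      obtain ⟨k, hk⟩ := hx
      refine ⟨k, ?_⟩
      rw [← QuotientGroup.eq_one_iff, QuotientGroup.mk_mul, QuotientGroup.mk_zpow, zpow_neg]
      have hk' : (QuotientGroup.mk a : G ⧸ Z) ^ k = QuotientGroup.mk x := hk
      rw [hk', mul_inv_cancel]
  · obtain ⟨c, hc⟩ := IsCyclic.exists_generator (α := C)
    refine ⟨Z ⊔ C, inferInstance, ?_, (c : G), ?_⟩
    · refine lt_of_le_of_ne le_sup_left ?_
      intro h
      exact hCZ (h ▸ le_sup_right)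
    · intro x hx
      rw [Subgroup.mem_sup_of_normal_left] at hx
      obtain ⟨z, hz, y, hy, rfl⟩ := hx
      obtain ⟨k, hk⟩ := hc ⟨y, hy⟩
      refine ⟨k, ?_⟩
      have hk' : (c : G) ^ k = y := by
        have := congrArg Subtype.val hk
        simpa using this
      rw [zpow_neg, hk', mul_inv_cancel_right]
      exact hz

end Pool.Agent.H91.RQ
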