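import Pool.Agent.H95.RQ.Targets2

/-!
# From characters of `F^*` to ray class characters (FSX)
-/

set_option autoImplicit false

open NumberField NumberField.InfinitePlace IsDedekindDomain

namespace Pool.Agent.H91.RQ

open Pool.Agent.H95.RQ Pool.Agent.H28.RC

section One

variable {F : Type} [Field F] [NumberField F]

/-- a nonzero integer as a unit of the field -/
noncomputable def toU (b : 𝓞 F) (hb : b ≠ 0) : Fˣ :=
  Units.mk0 (algebraMap (𝓞 F) F b) (by
    rw [Ne, FaithfulSMul.algebraMap_eq_zero_iff]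
    exact hb)

theorem toU_val (b : 𝓞 F) (hb : b ≠ 0) : (toU b hb : F) = algebraMap (𝓞 F) F b := rfl

/-- supported on `T` -/
def Sup (T : Finset (HeightOneSpectrum (𝓞 F))) (J : Ideal (𝓞 F)) : Prop :=
  ∀ P : HeightOneSpectrum (𝓞 F), P ∉ T → ¬ J ≤ P.asIdeal

theorem Sup.mul {T : Finset (HeightOneSpectrum (𝓞 F))} {J J' : Ideal (𝓞 F)} (h : Sup T J)
    (h' : Sup T J') : Sup T (J * J') := by
  intro P hP h1
  rcases P.isPrime.mul_le.1 h1 with h2 | h2
  · exact h P hP h2
  · exact h' P hP h2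

theorem Sup_top (T : Finset (HeightOneSpectrum (𝓞 F))) : Sup T (⊤ : Ideal (𝓞 F)) := by
  intro P _ h1
  exact P.isPrime.ne_top (top_le_iff.1 h1)

theorem val_le {I J J' : Ideal (𝓞 F)} {b b' : 𝓞 F} (h : I * J = Ideal.span {b})
    (h' : I * J' = Ideal.span {b'}) (P : HeightOneSpectrum (𝓞 F)) (hP : ¬ J' ≤ P.asIdeal) :
    P.valuation F (algebraMap (𝓞 F) F b) ≤ P.valuation F (algebraMap (𝓞 F) F b') := by
  obtain ⟨j, hj, hjP⟩ := SetLike.not_le_iff_exists.1 hP
  have h1 : b * j ∈ Ideal.span {b'} := by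
    have h2 : b * j ∈ Ideal.span {b} * J' :=
      Ideal.mul_mem_mul (Ideal.mem_span_singleton_self b) hj
    rw [← h, mul_assoc, mul_comm J J', ← mul_assoc, h'] at h2
    exact Ideal.mul_le_left h2
  obtain ⟨c, hc⟩ := Ideal.mem_span_singleton.1 h1
  have h3 : P.valuation F (algebraMap (𝓞 F) F b) * P.valuation F (algebraMap (𝓞 F) F j) =
      P.valuation F (algebraMap (𝓞 F) F b') * P.valuation F (algebraMap (𝓞 F) F c) := by
    rw [← map_mul, ← map_mul, ← map_mul, ← map_mul, hc]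
  rw [(HeightOneSpectrum.valuation_eq_one_iff_notMem P).2 hjP, mul_one] at h3
  rw [h3]
  exact mul_le_of_le_one_right' (P.valuation_le_one c)

theorem div_mem_UF {T : Finset (HeightOneSpectrum (𝓞 F))} {I J J' : Ideal (𝓞 F)} {b b' : 𝓞 F}
    (hb : b ≠ 0) (hb' : b' ≠ 0) (hJ : Sup T J) (hJ' : Sup T J') (h : I * J = Ideal.span {b})
    (h' : I * J' = Ideal.span {b'}) : toU b hb / toU b' hb' ∈ UF T := by
  intro P hP
  have h1 : P.valuation F (algebraMap (𝓞 F) F b) = P.valuation F (algebraMap (𝓞 F) F b') :=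
    le_antisymm (val_le h h' P (hJ' P hP)) (val_le h' h P (hJ P hP))
  rw [Units.val_div_eq_div_val, map_div₀, toU_val, toU_val, h1]
  refine div_self ?_
  rw [Valuation.ne_zero_iff, Ne, FaithfulSMul.algebraMap_eq_zero_iff]
  exact hb'

/-- every nonzero ideal is a product of an ideal prime to `m` and an ideal supported on `T` -/
theorem exists_split (T : Finset (HeightOneSpectrum (𝓞 F))) (m : Ideal (𝓞 F))
    (hm : ∀ P : HeightOneSpectrum (𝓞 F), m ≤ P.asIdeal → P ∈ T)
    (A : Ideal (𝓞 F)) (hA : A ≠ ⊥) :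
    ∃ I J : Ideal (𝓞 F), I ∈ IM m ∧ Sup T J ∧ A = I * J := by
  classical
  induction A using UniqueFactorizationMonoid.induction_on_prime with
  | h₁ => exact absurd rfl hA
  | h₂ x hx =>
    rw [Ideal.isUnit_iff] at hx
    refine ⟨⊤, ⊤, ⟨top_ne_bot, by simp⟩, Sup_top T, ?_⟩
    rw [hx]
    simp
  | h₃ a p ha hp ih =>
    obtain ⟨I, J, hI, hJ, h⟩ := ih ha
    have hp0 : p ≠ ⊥ := hp.ne_zero
    have hpp : p.IsPrime := Ideal.isPrime_of_prime hp
    by_cases hT : (⟨p, hpp, hp0⟩ : HeightOneSpectrum (𝓞 F)) ∈ T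
    · refine ⟨I, p * J, hI, ?_, ?_⟩
      · intro P hP h1
        rcases P.isPrime.mul_le.1 h1 with h2 | h2
        · have h3 : p = P.asIdeal := by
            have h4 : p.IsMaximal := hpp.isMaximal hp0
            exact h4.eq_of_le P.isPrime.ne_top h2
          apply hP
          have h5 : P = ⟨p, hpp, hp0⟩ := HeightOneSpectrum.ext h3.symm
          rw [h5]
          exact hT
        · exact hJ P hP h2
      · rw [h, ← mul_assoc, mul_comm p I, mul_assoc]
    · refine ⟨p * I, J, ?_, hJ, ?_⟩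
      · refine (IM m).mul_mem ⟨hp0, ?_⟩ hI
        have h4 : p.IsMaximal := hpp.isMaximal hp0
        rcases h4.out.2 (p ⊔ m) with h5
        by_contra hcon
        have h6 : ¬ p < p ⊔ m := fun h7 => hcon (h5 h7)
        have h8 : m ≤ p := by
          by_contra h9
          exact h6 (lt_of_le_of_ne le_sup_left fun h10 => h9 (h10 ▸ le_sup_right))
        exact hT (hm ⟨p, hpp, hp0⟩ h8)
      · rw [h, mul_assoc]

end One

section Two

variable {F E : Type} [Field F] [NumberField F] [Field E] [NumberField E] [Algebra F E]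

theorem exists_above {J : Ideal (𝓞 E)} (hJ : J ≠ ⊥) (P : HeightOneSpectrum (𝓞 F))
    (h : Ideal.relNorm (𝓞 F) J ≤ P.asIdeal) :
    ∃ Q : HeightOneSpectrum (𝓞 E), Q.asIdeal.under (𝓞 F) = P.asIdeal ∧ J ≤ Q.asIdeal := by
  induction J using UniqueFactorizationMonoid.induction_on_prime with
  | h₁ => exact absurd rfl hJ
  | h₂ x hx =>
    rw [Ideal.isUnit_iff] at hx
    rw [hx, Ideal.relNorm_top] at h
    exact absurd (top_le_iff.1 h) P.isPrime.ne_top
  | h₃ a p ha hp ih =>
    rw [map_mul] at h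
    rcases P.isPrime.mul_le.1 h with h1 | h1
    · have hp0 : p ≠ ⊥ := hp.ne_zero
      have hpp : p.IsPrime := Ideal.isPrime_of_prime hp
      obtain ⟨s, hs⟩ := Ideal.exists_relNorm_eq_pow_of_isPrime p (p.under (𝓞 F))
      rw [hs] at h1
      have h2 : p.under (𝓞 F) ≤ P.asIdeal := by
        have := P.isPrime
        exact Ideal.IsPrime.le_of_pow_le h1
      have h3 : (p.under (𝓞 F)).IsMaximal :=
        Ideal.IsPrime.isMaximal inferInstance (Ideal.under_ne_bot (𝓞 F) hp0)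
      exact ⟨⟨p, hpp, hp0⟩, h3.eq_of_le P.isPrime.ne_top h2, Ideal.mul_le_left⟩
    · obtain ⟨Q, hQ1, hQ2⟩ := ih ha h1
      exact ⟨Q, hQ1, Ideal.mul_le_right.trans hQ2⟩

end Two

theorem pf_FSX (_h_VAL : T_VAL) : T_FSX := by
  classical
  intro F E _ _ _ _ _ _ T k m hCG hCGE hm
  have hmT : ∀ P : HeightOneSpectrum (𝓞 F), m ≤ P.asIdeal → P ∈ T := by
    intro P hP
    rw [hm, P.isPrime.prod_le] at hP
    obtain ⟨Q, hQ, hQP⟩ := hP
    have := P.isPrime
    have h2 : Q.asIdeal ≤ P.asIdeal := Ideal.IsPrime.le_of_pow_le hQP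
    have h3 : Q = P := HeightOneSpectrum.ext (Q.isMaximal.eq_of_le P.isPrime.ne_top h2)
    exact h3 ▸ hQ
  have hmk : ∀ P ∈ T, m ≤ P.asIdeal ^ (k + 1) := by
    intro P hP
    rw [hm]
    exact Ideal.le_of_dvd (Finset.dvd_prod_of_mem _ hP)
  choose J b hb hJ hIJ using hCG
  have hI0 : ∀ I : IM m, (I : Ideal (𝓞 F)) ≠ ⊥ := fun I => I.2.1
  -- independence of the choices
  have key : ∀ (κ : {κ : Fˣ →* ℂˣ // ∀ x ∈ UF T ⊔ NN F E ⊔ UT T k, κ x = 1}) (I : Ideal (𝓞 F))
      (hI : I ≠ ⊥) (J' : Ideal (𝓞 F)) (b' : 𝓞 F) (hb' : b' ≠ 0), Sup T J' →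
      I * J' = Ideal.span {b'} → κ.1 (toU (b I hI) (hb I hI)) = κ.1 (toU b' hb') := by
    intro κ I hI J' b' hb' hJ' h
    have h1 := div_mem_UF (hb I hI) hb' (hJ I hI) hJ' (hIJ I hI) h
    have h2 := κ.2 _ (Subgroup.mem_sup_left (Subgroup.mem_sup_left h1))
    rw [map_div] at h2
    exact div_eq_one.1 h2
  refine ⟨fun κ =>
    { toFun := fun I => κ.1 (toU (b I (hI0 I)) (hb I (hI0 I)))
      map_one' := ?_
      map_mul' := ?_ }, ?_, ?_⟩
  · have h1 := key κ ((1 : IM m) : Ideal (𝓞 F)) (hI0 1) ⊤ 1 one_ne_zero (Sup_top T) (by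
      rw [OneMemClass.coe_one, Ideal.span_singleton_one, one_mul])
    rw [h1]
    have h2 : toU (1 : 𝓞 F) one_ne_zero = 1 := Units.ext (by rw [toU_val, map_one, Units.val_one])
    rw [h2, map_one]
  · intro I I'
    have h1 := key κ ((I * I' : IM m) : Ideal (𝓞 F)) (hI0 (I * I'))
      (J I (hI0 I) * J I' (hI0 I')) (b I (hI0 I) * b I' (hI0 I'))
      (mul_ne_zero (hb I (hI0 I)) (hb I' (hI0 I'))) (Sup.mul (hJ I (hI0 I)) (hJ I' (hI0 I'))) (by
        rw [← Ideal.span_singleton_mul_span_singleton, ← hIJ I (hI0 I), ← hIJ I' (hI0 I'),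
          Submonoid.coe_mul]
        exact mul_mul_mul_comm _ _ _ _)
    rw [h1, ← map_mul]
    congr 1
    exact Units.ext (by rw [Units.val_mul, toU_val, toU_val, toU_val, map_mul])
  · intro κ κ' h
    have h0 : ∀ (a : 𝓞 F) (ha : a ≠ 0), κ.1 (toU a ha) = κ'.1 (toU a ha) := by
      intro a ha
      obtain ⟨I, J', hI, hJ', h1⟩ := exists_split T m hmT (Ideal.span {a}) (by
        rw [Ne, Ideal.span_singleton_eq_bot]; exact ha)
      have h2 := key κ I hI.1 J' a ha hJ' h1.symm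
      have h3 := key κ' I hI.1 J' a ha hJ' h1.symm
      have h4 := DFunLike.congr_fun h ⟨I, hI⟩
      rw [← h2, ← h3]
      exact h4
    apply Subtype.ext
    apply MonoidHom.ext
    intro x
    obtain ⟨p, q, hq, hpq⟩ := IsFractionRing.div_surjective (A := 𝓞 F) (x : F)
    have hq0 : q ≠ 0 := nonZeroDivisors.ne_zero hq
    have hp0 : p ≠ 0 := by
      rintro rfl
      rw [map_zero, zero_div] at hpq
      exact x.ne_zero hpq.symm
    have h5 : x = toU p hp0 / toU q hq0 :=
      Units.ext (by rw [Units.val_div_eq_div_val, toU_val, toU_val, hpq])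
    rw [h5, map_div, map_div, h0 p hp0, h0 q hq0]
  · intro κ
    refine ⟨?_, ?_⟩
    · intro a h h1 h2
      have ha : a ≠ 0 := by
        rintro rfl
        exact h.1 (by simp)
      have h3 := key κ (Ideal.span {a}) h.1 ⊤ a ha (Sup_top T) (by rw [Ideal.mul_top])
      change κ.1 (toU (b (Ideal.span {a}) _) _) = 1
      rw [h3]
      apply κ.2
      apply Subgroup.mem_sup_right
      refine ⟨?_, fun v _ => h2 v⟩
      refine Subgroup.mem_iInf.2 fun P => Subgroup.mem_iInf.2 fun hP => ?_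
      have h4 : a - 1 ∈ P.asIdeal ^ (k + 1) := hmk P hP h1
      rw [← HeightOneSpectrum.intValuation_le_pow_iff_mem,
        ← HeightOneSpectrum.valuation_of_algebraMap (K := F)] at h4
      have h5 : (algebraMap (𝓞 F) F (a - 1)) = (toU a ha : F) - 1 := by
        rw [toU_val, map_sub, map_one]
      have h6 : (P.valuation F) (algebraMap (𝓞 F) F (a - 1)) ≤ WithZero.exp (-((k + 1 : ℕ) : ℤ)) := h4
      rw [h5] at h6
      push_cast at h6
      exact h6
    · intro J' h
      have hJ0 : J' ≠ ⊥ := by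
        rintro rfl
        exact h.1 (Ideal.relNorm_bot (𝓞 F))
      obtain ⟨J'', c, hc, hJ'', h1⟩ := hCGE J' hJ0
      have hJ''0 : J'' ≠ ⊥ := by
        rintro rfl
        rw [Ideal.mul_bot] at h1
        exact hc (Ideal.span_singleton_eq_bot.1 h1.symm)
      have hc' : Algebra.intNorm (𝓞 F) (𝓞 E) c ≠ 0 := by
        intro h2
        have h3 : Ideal.relNorm (𝓞 F) (Ideal.span {c}) = ⊥ := by
          rw [Ideal.relNorm_singleton, h2]
          simp
        rw [Ideal.relNorm_eq_bot_iff, Ideal.span_singleton_eq_bot] at h3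
        exact hc h3
      have h2 := key κ (Ideal.relNorm (𝓞 F) J') h.1 (Ideal.relNorm (𝓞 F) J'')
        (Algebra.intNorm (𝓞 F) (𝓞 E) c) hc' (by
          intro P hP h3
          obtain ⟨Q, hQ1, hQ2⟩ := exists_above hJ''0 P h3
          refine hJ'' Q ?_ hQ2
          rintro ⟨P', hP', hP'Q⟩
          have h4 : P' = P := HeightOneSpectrum.ext (hP'Q.symm.trans hQ1)
          exact hP (h4 ▸ hP')) (by
          rw [← map_mul, h1, Ideal.relNorm_singleton])
      change κ.1 (toU (b (Ideal.relNorm (𝓞 F) J') _) _) = 1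
      rw [h2]
      apply κ.2
      apply Subgroup.mem_sup_left
      apply Subgroup.mem_sup_right
      refine ⟨toU c hc, Units.ext ?_⟩
      rw [Units.coe_map, toU_val, toU_val, Algebra.algebraMap_intNorm (L := E)]

end Pool.Agent.H91.RQ
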