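import Pool.Agent.H95.RQ.Targets2

/-!
# The index of an intersection (WAP)
-/

set_option autoImplicit false

open NumberField NumberField.InfinitePlace IsDedekindDomain

namespace Pool.Agent.H91.RQ

open Pool.Agent.H95.RQ Pool.Agent.H28.RC

theorem card_signUnits : Nat.card SignTypeˣ = 2 := by
  rw [Nat.card_eq_fintype_card]
  decide

theorem signUnits_cases (u : SignTypeˣ) : (u : SignType) = 1 ∨ (u : SignType) = -1 := by
  revert u
  decide

/-- the sign at a real place -/
noncomputable def sgn {K : Type} [Field K] (v : RP K) : Kˣ →* SignTypeˣ :=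
  Units.map ((signHom : ℝ →*₀ SignType).toMonoidHom.comp
    (embedding_of_isReal v.2 : K →+* ℝ).toMonoidHom)

theorem sgn_val {K : Type} [Field K] (v : RP K) (x : Kˣ) :
    ((sgn v x : SignTypeˣ) : SignType) = SignType.sign (re v (x : K)) := rfl

theorem sgn_eq_one {K : Type} [Field K] (v : RP K) (x : Kˣ) :
    sgn v x = 1 ↔ 0 < re v (x : K) := by
  rw [← Units.val_inj, sgn_val, Units.val_one]
  exact sign_eq_one_iff

/-- all the quotient maps and the signs -/
noncomputable def bigHom {K : Type} [Field K] [NumberField K]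
    (T : Finset (HeightOneSpectrum (𝓞 K))) (B : HeightOneSpectrum (𝓞 K) → Subgroup Kˣ)
    (R : Set (RP K)) :
    Kˣ →* ((P : T) → Kˣ ⧸ B P) × (R → SignTypeˣ) :=
  MonoidHom.prod (MonoidHom.pi fun P : T => QuotientGroup.mk' (B P))
    (MonoidHom.pi fun v : R => sgn v.1)

theorem bigHom_ker {K : Type} [Field K] [NumberField K]
    (T : Finset (HeightOneSpectrum (𝓞 K))) (B : HeightOneSpectrum (𝓞 K) → Subgroup Kˣ)
    (R : Set (RP K)) : (bigHom T B R).ker = (⨅ P ∈ T, B P) ⊓ PosR R := by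
  ext x
  rw [MonoidHom.mem_ker, Subgroup.mem_inf]
  have h1 : bigHom T B R x = 1 ↔ (∀ P : T, QuotientGroup.mk' (B P) x = 1) ∧
      ∀ v : R, sgn v.1 x = 1 := by
    unfold bigHom
    rw [MonoidHom.prod_apply, Prod.mk_eq_one]
    constructor
    · rintro ⟨h2, h3⟩
      exact ⟨fun P => congrFun h2 P, fun v => congrFun h3 v⟩
    · rintro ⟨h2, h3⟩
      exact ⟨funext h2, funext h3⟩
  rw [h1]
  refine and_congr ?_ ?_
  · rw [Subgroup.mem_iInf]
    constructor
    · intro h P
      rw [Subgroup.mem_iInf]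
      intro hP
      exact (QuotientGroup.eq_one_iff x).1 (h ⟨P, hP⟩)
    · intro h P
      have := Subgroup.mem_iInf.1 (h P.1) P.2
      exact (QuotientGroup.eq_one_iff x).2 this
  · constructor
    · intro h v hv
      exact (sgn_eq_one v x).1 (h ⟨v, hv⟩)
    · intro h v
      exact (sgn_eq_one v.1 x).2 (h v.1 v.2)

theorem bigHom_surj (h_WAS : T_WAS) {K : Type} [Field K] [NumberField K]
    (T : Finset (HeightOneSpectrum (𝓞 K))) (k : ℕ)
    (B : HeightOneSpectrum (𝓞 K) → Subgroup Kˣ) (R : Set (RP K))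
    (hB : ∀ P ∈ T, Uk P k ≤ B P) : Function.Surjective (bigHom T B R) := by
  classical
  rintro ⟨q, s⟩
  obtain ⟨f, h1, h2, h3⟩ := h_WAS K T k
    (fun P => if h : P ∈ T then (q ⟨P, h⟩).out else 1) {v | ∃ h : v ∈ R, s ⟨v, h⟩ ≠ 1}
  refine ⟨f, Prod.ext (funext fun P => ?_) (funext fun v => ?_)⟩
  · have h4 := hB P.1 P.2 (h1 P.1 P.2)
    rw [dif_pos P.2] at h4
    change (QuotientGroup.mk f : Kˣ ⧸ B P) = q P
    have h5 : (QuotientGroup.mk f : Kˣ ⧸ B P) = QuotientGroup.mk (q P).out := by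
      rw [QuotientGroup.eq_iff_div_mem]
      exact h4
    rw [h5, QuotientGroup.out_eq']
  · change sgn v.1 f = s v
    by_cases h : s v = 1
    · rw [h]
      exact (sgn_eq_one v.1 f).2 (h3 v.1 fun ⟨_, h4⟩ => h4 h)
    · have h4 : re v.1 (f : K) < 0 := h2 v.1 ⟨v.2, h⟩
      rw [← Units.val_inj, sgn_val]
      rcases signUnits_cases (s v) with h5 | h5
      · exact absurd (Units.ext h5) h
      · rw [h5]
        exact sign_neg h4

theorem pf_WAP (h_WAS : T_WAS) : T_WAP := by
  intro K _ _ T k B R hB _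
  have h1 := @Subgroup.index_ker Kˣ (((P : T) → Kˣ ⧸ B P) × (R → SignTypeˣ)) _ _ (bigHom T B R)
  rw [bigHom_ker] at h1
  rw [h1, MonoidHom.range_eq_top.2 (bigHom_surj h_WAS T k B R hB)]
  have h2 : Nat.card (⊤ : Subgroup (((P : T) → Kˣ ⧸ B P) × (R → SignTypeˣ))) =
      Nat.card (((P : T) → Kˣ ⧸ B P) × (R → SignTypeˣ)) :=
    Nat.card_congr Subgroup.topEquiv.toEquiv
  rw [h2, Nat.card_prod, Nat.card_pi, Nat.card_fun, card_signUnits]
  congr 1
  exact Finset.prod_coe_sort T fun P => (B P).index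

end Pool.Agent.H91.RQ
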